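import Mathlib

open Matrix Filter Topology
open scoped ComplexConjugate ComplexOrder MatrixOrder

namespace Pool.Agent.Results.MP_76760e_an.NotAdmissible

/-- The Toeplitz matrix `[a (i - j)]` over `S` is positive, that is of the form `B* B`. -/
def ToepPos {A : Type} [Ring A] [StarRing A] (S : Finset (ℤ × ℤ)) (a : ℤ × ℤ → A) : Prop :=
  ∃ B : Matrix S S A, (Matrix.of fun i j : S => a (i.1 - j.1)) = Bᴴ * B

/-- The extension property of a finite subset of the plane lattice over `A`. -/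
def ExtProp (A : Type) [Ring A] [StarRing A] (L : Finset (ℤ × ℤ)) : Prop :=
  ∀ a : ℤ × ℤ → A, ToepPos L a → ∀ K : Finset (ℤ × ℤ), L ⊆ K →
    ∃ b : ℤ × ℤ → A, (∀ i ∈ L, ∀ j ∈ L, b (i - j) = a (i - j)) ∧ ToepPos K b

def Rep (a b c : ℂ) : Prop :=
  ∃ (n : ℕ) (p : Fin n → ℝ) (z w : Fin n → ℂ), (∀ k, 0 ≤ p k ∧ conj (z k) * z k = 1 ∧
    conj (w k) * w k = 1) ∧ ∑ k, (p k : ℂ) = 1 ∧ ∑ k, p k * z k = a ∧ ∑ k, p k * w k = b ∧
    ∑ k, p k * (conj (z k) * w k) = c

theorem Rep.mid {a b c d : ℂ} (h1 : Rep a b c) (h2 : Rep a b d) : Rep a b ((c + d) / 2) := by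
  obtain ⟨n, p, z, w, h, e1, e2, e3, e4⟩ := h1
  obtain ⟨m, q, x, y, g, f1, f2, f3, f4⟩ := h2
  refine ⟨n + m, Fin.append (fun k => p k / 2) (fun k => q k / 2), Fin.append z x, Fin.append w y,
    fun k => ?_, ?_, ?_, ?_, ?_⟩
  · refine Fin.addCases (fun k => ?_) (fun k => ?_) k
    · simp only [Fin.append_left]; exact ⟨by linarith [(h k).1], (h k).2⟩
    · simp only [Fin.append_right]; exact ⟨by linarith [(g k).1], (g k).2⟩
  all_goals
    simp only [Fin.sum_univ_add, Fin.append_left, Fin.append_right]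
    push_cast
    simp only [div_mul_eq_mul_div, ← Finset.sum_div, e1, e2, e3, e4, f1, f2, f3, f4]
    ring

theorem orth (u v : Fin 3 → ℝ) : ∃ k x y : ℝ, k ^ 2 + x ^ 2 + y ^ 2 = 1 ∧
    u 0 * k + u 1 * x + u 2 * y = 0 ∧ v 0 * k + v 1 * x + v 2 * y = 0 := by
  obtain ⟨t, ht, h⟩ := (Matrix.exists_mulVec_eq_zero_iff (M := Matrix.of ![u, v, 0])).2
    (Matrix.det_eq_zero_of_row_eq_zero 2 (by simp))
  have h0 := congrFun h 0
  have h1 := congrFun h 1
  simp [Matrix.mulVec, dotProduct, Fin.sum_univ_three] at h0 h1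
  have hp : 0 < t 0 ^ 2 + t 1 ^ 2 + t 2 ^ 2 := by
    by_contra hc
    apply ht
    ext i
    fin_cases i <;> simp <;> nlinarith [sq_nonneg (t 0), sq_nonneg (t 1), sq_nonneg (t 2)]
  set ρ := √(t 0 ^ 2 + t 1 ^ 2 + t 2 ^ 2)
  have hρ : 0 < ρ := Real.sqrt_pos.2 hp
  have hρ2 : ρ ^ 2 = t 0 ^ 2 + t 1 ^ 2 + t 2 ^ 2 := Real.sq_sqrt hp.le
  refine ⟨t 0 / ρ, t 1 / ρ, t 2 / ρ, ?_, ?_, ?_⟩
  · field_simp; linarith
  · field_simp; linarith
  · field_simp; linarith

theorem unim {b τ η : ℂ} {k : ℝ} (h1 : conj b * b + conj τ * τ = 1) (h2 : k ^ 2 + conj η * η = 1)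
    (h3 : b * conj τ * η + conj b * τ * conj η + 2 * (conj τ * τ) * k = 0) (hk : (1 : ℂ) - k ≠ 0) :
    conj (b + τ * conj η / (1 - k)) * (b + τ * conj η / (1 - k)) = 1 := by
  simp only [map_add, map_div₀, map_mul, map_sub, map_one, Complex.conj_conj, Complex.conj_ofReal]
  field_simp
  linear_combination (1 - k) ^ 2 * h1 + (1 - k) * h3 + conj τ * τ * h2

theorem rep2 (a b σ τ : ℂ) (ha : conj a * a + conj σ * σ = 1) (hb : conj b * b + conj τ * τ = 1) :
    Rep a b (conj a * b + conj σ * τ) := by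
  obtain ⟨k, x, y, h0, h1, h2⟩ := orth
    ![Complex.normSq σ, (a * conj σ).re, -(a * conj σ).im]
    ![Complex.normSq τ, (b * conj τ).re, -(b * conj τ).im]
  simp only [Matrix.cons_val_zero, Matrix.cons_val_one, Matrix.cons_val] at h1 h2
  set η : ℂ := x + y * Complex.I with hη
  have e0 : (k : ℂ) ^ 2 + conj η * η = 1 := by
    rw [← Complex.normSq_eq_conj_mul_self, hη, Complex.normSq_add_mul_I]
    exact_mod_cast (by linarith : k ^ 2 + (x ^ 2 + y ^ 2) = 1)
  have key : ∀ a σ : ℂ, Complex.normSq σ * k + (a * conj σ).re * x + -(a * conj σ).im * y = 0 →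
      a * conj σ * η + conj a * σ * conj η + 2 * (conj σ * σ) * k = 0 := by
    intro a σ h
    have : conj a * σ * conj η = conj (a * conj σ * η) := by simp
    rw [this, Complex.add_conj, ← Complex.normSq_eq_conj_mul_self]
    have h3 : (a * conj σ * η).re = (a * conj σ).re * x - (a * conj σ).im * y := by
      rw [Complex.mul_re]; simp [hη]
    rw [h3]
    exact_mod_cast (by linarith : 2 * ((a * conj σ).re * x - (a * conj σ).im * y)
      + 2 * Complex.normSq σ * k = 0)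
  have e1 := key a σ h1
  have e2 := key b τ h2
  by_cases hk : k ^ 2 = 1
  · have hx : x = 0 := by nlinarith
    have hy : y = 0 := by nlinarith
    have hk0 : k ≠ 0 := by rintro rfl; norm_num at hk
    have hσ : σ = 0 := by simpa [hx, hy, hk0] using h1
    have hτ : τ = 0 := by simpa [hx, hy, hk0] using h2
    refine ⟨1, fun _ => 1, fun _ => a, fun _ => b, fun _ => ⟨zero_le_one, ?_, ?_⟩, ?_, ?_, ?_, ?_⟩
    · simpa [hσ] using ha
    · simpa [hτ] using hb
    all_goals simp [hσ]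
  · have hk1 : k ^ 2 < 1 := lt_of_le_of_ne (by nlinarith) hk
    have hk2 := abs_lt.1 ((sq_lt_one_iff_abs_lt_one k).1 hk1)
    have n1 : (1 : ℂ) - k ≠ 0 := by exact_mod_cast (by linarith : (1 : ℝ) - k ≠ 0)
    have n2 : (1 : ℂ) - (-k : ℝ) ≠ 0 := by exact_mod_cast (by linarith : (1 : ℝ) - -k ≠ 0)
    have n3 : (1 : ℂ) + k ≠ 0 := by exact_mod_cast (by linarith : (1 : ℝ) + k ≠ 0)
    refine ⟨2, ![(1 - k) / 2, (1 + k) / 2],
      ![a + σ * conj η / (1 - k), a + σ * conj (-η) / (1 - (-k : ℝ))],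
      ![b + τ * conj η / (1 - k), b + τ * conj (-η) / (1 - (-k : ℝ))], fun i => ?_, ?_, ?_, ?_, ?_⟩
    · fin_cases i
      · exact ⟨by simp; linarith, unim ha e0 e1 n1, unim hb e0 e2 n1⟩
      · refine ⟨by simp; linarith, unim ha ?_ ?_ n2, unim hb ?_ ?_ n2⟩ <;>
          simp only [map_neg, Complex.ofReal_neg]
        · linear_combination e0
        · linear_combination -e1
        · linear_combination e0
        · linear_combination -e2
    · simp; ring
    · simp; field_simp; ring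
    · simp; field_simp; ring
    · simp
      field_simp
      linear_combination (2 * conj σ * τ) * e0

theorem rep (a b c : ℂ) (ha : ‖a‖ ≤ 1) (hb : ‖b‖ ≤ 1)
    (hc : ‖c - conj a * b‖ ^ 2 ≤ (1 - ‖a‖ ^ 2) * (1 - ‖b‖ ^ 2)) : Rep a b c := by
  have h1 : 0 ≤ 1 - ‖a‖ ^ 2 := by nlinarith [norm_nonneg a]
  have h2 : 0 ≤ 1 - ‖b‖ ^ 2 := by nlinarith [norm_nonneg b]
  have cm : ∀ z : ℂ, conj z * z = ((‖z‖ ^ 2 : ℝ) : ℂ) := fun z => by
    rw [← Complex.normSq_eq_conj_mul_self, Complex.normSq_eq_norm_sq]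
  set s := √(1 - ‖a‖ ^ 2)
  have hs : s ^ 2 = 1 - ‖a‖ ^ 2 := Real.sq_sqrt h1
  have hs0 : 0 ≤ s := Real.sqrt_nonneg _
  have has : conj a * a + conj (s : ℂ) * s = 1 := by
    rw [cm, cm, Complex.norm_real, Real.norm_eq_abs, sq_abs, hs]; push_cast; ring
  obtain ⟨τ, hτ, e⟩ : ∃ τ : ℂ, ‖τ‖ ^ 2 ≤ 1 - ‖b‖ ^ 2 ∧ c = conj a * b + s * τ := by
    rcases hs0.eq_or_lt with h | h
    · rw [← hs, ← h] at hc
      have : ‖c - conj a * b‖ = 0 := by nlinarith [norm_nonneg (c - conj a * b)]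
      exact ⟨0, by simpa using h2, by simpa [sub_eq_zero] using this⟩
    · have hne : (s : ℂ) ≠ 0 := by exact_mod_cast h.ne'
      refine ⟨(c - conj a * b) / s, ?_, by field_simp; ring⟩
      rw [norm_div, div_pow, Complex.norm_real, Real.norm_eq_abs, sq_abs,
        div_le_iff₀ (by positivity), hs]
      linarith
  obtain ⟨u, hu, hu2⟩ : ∃ u : ℂ, ‖u‖ = 1 ∧ τ = ‖τ‖ * u := by
    by_cases h : τ = 0
    · exact ⟨1, by simp, by simp [h]⟩
    · have : (‖τ‖ : ℂ) ≠ 0 := by simpa using h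
      exact ⟨τ / ‖τ‖, by simp [h], by field_simp⟩
  set d := √(1 - ‖b‖ ^ 2 - ‖τ‖ ^ 2)
  have hd : d ^ 2 = 1 - ‖b‖ ^ 2 - ‖τ‖ ^ 2 := Real.sq_sqrt (by linarith)
  have k : ∀ d' : ℝ, d' ^ 2 = d ^ 2 → Rep a b (conj a * b + conj (s : ℂ) * ((‖τ‖ + d' * Complex.I) * u)) := by
    intro d' h
    refine rep2 a b s _ has ?_
    rw [cm, cm, norm_mul, hu, mul_one, ← Complex.normSq_eq_norm_sq (_ + _),
      Complex.normSq_add_mul_I, h, hd]
    push_cast; ring
  have := (k d rfl).mid (k (-d) (by ring))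
  convert this using 1
  rw [e, Complex.conj_ofReal]
  nth_rewrite 1 [hu2]
  push_cast; ring

def L : Finset (ℤ × ℤ) := {(0, 0), (1, 0), (0, 1)}

theorem gram {S : Finset (ℤ × ℤ)} {a : ℤ × ℤ → ℂ} (h : ToepPos S a) :
    ∃ v : ℤ × ℤ → EuclideanSpace ℂ S, ∀ i ∈ S, ∀ j ∈ S, inner ℂ (v i) (v j) = a (i - j) := by
  obtain ⟨B, hB⟩ := h
  refine ⟨fun i => if h : i ∈ S then WithLp.toLp 2 fun k => B k ⟨i, h⟩ else 0, fun i hi j hj => ?_⟩
  have := congrFun (congrFun hB ⟨i, hi⟩) ⟨j, hj⟩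
  simp only [Matrix.of_apply, Matrix.mul_apply, Matrix.conjTranspose_apply] at this
  rw [this]
  simp [hi, hj, PiLp.inner_apply, mul_comm]

theorem ext_scalar : ExtProp ℂ L := by
  intro a ha K _
  obtain ⟨v, hv⟩ := gram ha
  have m0 : ((0, 0) : ℤ × ℤ) ∈ L := by decide
  have m1 : ((1, 0) : ℤ × ℤ) ∈ L := by decide
  have m2 : ((0, 1) : ℤ × ℤ) ∈ L := by decide
  set N := ‖v (0, 0)‖ ^ 2 with hN
  have hn : ∀ i ∈ L, ‖v i‖ ^ 2 = N := by
    intro i hi
    have h1 := hv i hi i hi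
    have h2 := hv _ m0 _ m0
    rw [sub_self, inner_self_eq_norm_sq_to_K] at h1 h2
    rw [← h2] at h1
    exact_mod_cast h1
  have hcs : ∀ i ∈ L, ∀ j ∈ L, ‖a (i - j)‖ ≤ N := by
    intro i hi j hj
    rw [← hv i hi j hj]
    refine (norm_inner_le_norm _ _).trans ?_
    nlinarith [hn i hi, hn j hj, sq_nonneg (‖v i‖ - ‖v j‖)]
  rcases (show 0 ≤ N by positivity).eq_or_lt with h0 | h0
  · refine ⟨0, fun i hi j hj => ?_, 0, by ext; simp⟩
    have := hcs i hi j hj
    rw [← h0] at this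
    exact (norm_le_zero_iff.1 this).symm
  have hNc : (N : ℂ) ≠ 0 := by exact_mod_cast h0.ne'
  have i00 : inner ℂ (v (0, 0)) (v (0, 0)) = N := by
    rw [inner_self_eq_norm_sq_to_K, hN]; simp
  set α := inner ℂ (v (1, 0)) (v (0, 0)) with hα
  set β := inner ℂ (v (0, 1)) (v (0, 0)) with hβ
  set γ := inner ℂ (v (0, 1)) (v (1, 0)) with hγ
  have perp : ∀ i ∈ L, ‖v i - (inner ℂ (v (0, 0)) (v i) / N : ℂ) • v (0, 0)‖ ^ 2
      = N * (1 - ‖inner ℂ (v i) (v (0, 0)) / N‖ ^ 2) := by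
    intro i hi
    rw [@norm_sub_sq ℂ, inner_smul_right, norm_smul, mul_pow, hn i hi, ← hN,
      ← inner_conj_symm (v (0, 0)) (v i), div_mul_eq_mul_div, ← Complex.normSq_eq_conj_mul_self,
      Complex.normSq_eq_norm_sq, ← Complex.ofReal_div]
    simp only [RCLike.re_to_complex, Complex.ofReal_re, norm_div, RCLike.norm_conj,
      Complex.norm_real, Real.norm_of_nonneg h0.le]
    field_simp; ring
  have hR : Rep (α / N) (β / N) (γ / N) := by
    refine rep _ _ _ ?_ ?_ ?_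
    · rw [norm_div, Complex.norm_real, Real.norm_of_nonneg h0.le, div_le_one h0, hα, hv _ m1 _ m0]
      exact hcs _ m1 _ m0
    · rw [norm_div, Complex.norm_real, Real.norm_of_nonneg h0.le, div_le_one h0, hβ, hv _ m2 _ m0]
      exact hcs _ m2 _ m0
    · have h1 := norm_inner_le_norm (𝕜 := ℂ)
        (v (0, 1) - (inner ℂ (v (0, 0)) (v (0, 1)) / N : ℂ) • v (0, 0))
        (v (1, 0) - (inner ℂ (v (0, 0)) (v (1, 0)) / N : ℂ) • v (0, 0))
      have h2 := pow_le_pow_left₀ (norm_nonneg _) h1 2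
      rw [mul_pow, perp _ m1, perp _ m2] at h2
      have h3 : inner ℂ (v (0, 1) - (inner ℂ (v (0, 0)) (v (0, 1)) / N : ℂ) • v (0, 0))
          (v (1, 0) - (inner ℂ (v (0, 0)) (v (1, 0)) / N : ℂ) • v (0, 0))
          = N * (γ / N - conj (α / N) * (β / N)) := by
        simp only [inner_sub_left, inner_sub_right, inner_smul_left, inner_smul_right, i00,
          map_div₀, inner_conj_symm, Complex.conj_ofReal, hα, hβ, hγ]
        field_simp; ring
      rw [h3, norm_mul, mul_pow, Complex.norm_real, Real.norm_of_nonneg h0.le] at h2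
      refine le_of_mul_le_mul_left ?_ (show 0 < N ^ 2 by positivity)
      linarith
  obtain ⟨n, p, z, w, h, e1, e2, e3, e4⟩ := hR
  have zi : ∀ k, (z k)⁻¹ = conj (z k) := fun k => inv_eq_of_mul_eq_one_left (h k).2.1
  have wi : ∀ k, (w k)⁻¹ = conj (w k) := fun k => inv_eq_of_mul_eq_one_left (h k).2.2
  have z0 : ∀ k, z k ≠ 0 := fun k => right_ne_zero_of_mul_eq_one (h k).2.1
  have w0 : ∀ k, w k ≠ 0 := fun k => right_ne_zero_of_mul_eq_one (h k).2.2
  set b : ℤ × ℤ → ℂ := fun l => N * ∑ k, p k * (z k ^ l.1 * w k ^ l.2) with hb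
  have bneg : ∀ l, b (-l) = conj (b l) := by
    intro l
    simp only [hb, map_mul, map_sum, Complex.conj_ofReal, map_zpow₀, ← zi, ← wi, Prod.fst_neg,
      Prod.snd_neg, _root_.zpow_neg, _root_.inv_zpow]
  refine ⟨b, ?_, ?_⟩
  · have sym : ∀ i ∈ L, ∀ j ∈ L, b (i - j) = a (i - j) → b (j - i) = a (j - i) := by
      intro i hi j hj h
      rw [← neg_sub, bneg, h, ← hv i hi j hj, inner_conj_symm, neg_sub, hv j hj i hi]
    have d0 : ∀ i ∈ L, b (i - i) = a (i - i) := by
      intro i hi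
      rw [← hv i hi i hi, inner_self_eq_norm_sq_to_K, sub_self]
      simp only [hb, Prod.fst_zero, Prod.snd_zero, zpow_zero, mul_one, e1]
      rw [← hn i hi]; simp
    have d1 : b ((1, 0) - (0, 0)) = a ((1, 0) - (0, 0)) := by
      rw [← hv _ m1 _ m0, ← hα]
      simp [hb, e2]; field_simp
    have d2 : b ((0, 1) - (0, 0)) = a ((0, 1) - (0, 0)) := by
      rw [← hv _ m2 _ m0, ← hβ]
      simp [hb, e3]; field_simp
    have d3 : b ((0, 1) - (1, 0)) = a ((0, 1) - (1, 0)) := by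
      rw [← hv _ m2 _ m1, ← hγ]
      simp [hb, zi, e4]; field_simp
    intro i hi j hj
    simp only [L, Finset.mem_insert, Finset.mem_singleton] at hi hj
    rcases hi with rfl | rfl | rfl <;> rcases hj with rfl | rfl | rfl
    exacts [d0 _ m0, sym _ m1 _ m0 d1, sym _ m2 _ m0 d2, d1, d0 _ m1, sym _ m2 _ m1 d3, d2, d3,
      d0 _ m2]
  · refine CStarAlgebra.nonneg_iff_eq_star_mul_self.1 (Matrix.PosSemidef.nonneg ?_)
    have : (Matrix.of fun i j : K => b (i.1 - j.1)) = ∑ k, ((N * p k : ℝ) : ℂ) •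
        vecMulVec (fun i : K => z k ^ i.1.1 * w k ^ i.1.2)
          (star fun i : K => z k ^ i.1.1 * w k ^ i.1.2) := by
      ext i j
      simp only [hb, Matrix.of_apply, Matrix.sum_apply, Matrix.smul_apply, vecMulVec_apply,
        Pi.star_apply, Finset.mul_sum, smul_eq_mul, RCLike.star_def, map_mul, map_zpow₀, ← zi, ← wi,
        Prod.fst_sub, Prod.snd_sub, zpow_sub₀ (z0 _), zpow_sub₀ (w0 _), _root_.inv_zpow]
      refine Finset.sum_congr rfl fun k _ => ?_
      push_cast; ring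
    rw [this]
    exact posSemidef_sum _ fun k _ => (posSemidef_vecMulVec_self_star _).smul
      (Complex.zero_le_real.2 (mul_nonneg h0.le (h k).1))

abbrev X : Type := Set.Icc (-1 : ℝ) 1

noncomputable def cc : C(X, ℂ) := ⟨fun x => (√(1 - x.1 ^ 2) : ℝ), by fun_prop⟩
noncomputable def sg : C(X, ℂ) :=
  ⟨fun x => (max x.1 0 : ℝ) + (max (-x.1) 0 : ℝ) * Complex.I, by fun_prop⟩

theorem cc_star : star cc = cc := by ext x; simp [cc]

theorem cs : cc * cc + star sg * sg = 1 := by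
  ext x
  have h1 : 0 ≤ 1 - x.1 ^ 2 := by nlinarith [x.2.1, x.2.2]
  simp only [ContinuousMap.add_apply, ContinuousMap.mul_apply, ContinuousMap.star_apply,
    ContinuousMap.one_apply, RCLike.star_def]
  rw [← Complex.normSq_eq_conj_mul_self]
  simp only [cc, sg, ContinuousMap.coe_mk, Complex.normSq_add_mul_I]
  rw [← Complex.ofReal_mul, Real.mul_self_sqrt h1]
  have : max x.1 0 ^ 2 + max (-x.1) 0 ^ 2 = x.1 ^ 2 := by
    rcases le_total x.1 0 with h | h
    · rw [max_eq_right h, max_eq_left (by linarith)]; ring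
    · rw [max_eq_left h, max_eq_right (by linarith)]; ring
  rw [this]; push_cast; ring

noncomputable def A (l : ℤ × ℤ) : C(X, ℂ) :=
  if l = (0, 0) then 1 else if l = (1, 0) ∨ l = (-1, 0) then cc
  else if l = (1, -1) then star sg else if l = (-1, 1) then sg else 0

theorem A_pos : ToepPos L A := by
  refine ⟨Matrix.of fun k j => if k.1 = (0, 0) then
      (if j.1 = (0, 0) then 1 else if j.1 = (1, 0) then cc else 0)
    else if k.1 = (0, 1) then (if j.1 = (0, 1) then 1 else if j.1 = (1, 0) then sg else 0)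
    else 0, ?_⟩
  ext1 ⟨i, hi⟩ ⟨j, hj⟩
  simp only [Matrix.of_apply, Matrix.mul_apply, Matrix.conjTranspose_apply]
  rw [Finset.sum_coe_sort L (fun k => star (if k = (0, 0) then
      (if i = (0, 0) then 1 else if i = (1, 0) then cc else 0)
    else if k = (0, 1) then (if i = (0, 1) then 1 else if i = (1, 0) then sg else 0)
    else 0) * (if k = (0, 0) then
      (if j = (0, 0) then 1 else if j = (1, 0) then cc else 0)
    else if k = (0, 1) then (if j = (0, 1) then 1 else if j = (1, 0) then sg else 0)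
    else 0))]
  simp only [L, Finset.mem_insert, Finset.mem_singleton] at hi hj
  rcases hi with rfl | rfl | rfl <;> rcases hj with rfl | rfl | rfl <;>
    simp [L, A, cc_star, cs, ← Prod.mk_zero_zero]

theorem forced {E : Type} [NormedAddCommGroup E] [InnerProductSpace ℂ E] (u v w : E) (c σ : ℂ)
    (hc : conj c = c) (h : c * c + conj σ * σ = 1) (h1 : inner ℂ u u = 1) (h2 : inner ℂ v v = 1)
    (h3 : inner ℂ w w = 1) (h4 : inner ℂ v u = c) (h5 : inner ℂ w u = 0)
    (h6 : inner ℂ v w = conj σ) : v = c • u + σ • w := by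
  rw [← sub_eq_zero, ← inner_self_eq_zero (𝕜 := ℂ)]
  have g4 : inner ℂ u v = c := by rw [← inner_conj_symm, h4, hc]
  have g5 : inner ℂ u w = 0 := by rw [← inner_conj_symm, h5, map_zero]
  have g6 : inner ℂ w v = σ := by rw [← inner_conj_symm, h6, Complex.conj_conj]
  simp only [inner_sub_left, inner_sub_right, inner_add_left, inner_add_right, inner_smul_left,
    inner_smul_right, h1, h2, h3, h4, h5, h6, g4, g5, g6, hc]
  linear_combination -h

theorem not_ext : ¬ ExtProp C(X, ℂ) L := by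
  intro H
  obtain ⟨b, hb, B, hB⟩ := H A A_pos {(0, 0), (1, 0), (0, 1), (0, -1), (1, -1)} (by decide)
  have b0 : b (0, 0) = 1 := by
    simpa [A, ← Prod.mk_zero_zero] using hb (0, 0) (by decide) (0, 0) (by decide)
  have b1 : b (1, 0) = cc := by simpa [A] using hb (1, 0) (by decide) (0, 0) (by decide)
  have b1' : b (-1, 0) = cc := by simpa [A] using hb (0, 0) (by decide) (1, 0) (by decide)
  have b2 : b (0, 1) = 0 := by simpa [A] using hb (0, 1) (by decide) (0, 0) (by decide)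
  have b2' : b (0, -1) = 0 := by simpa [A] using hb (0, 0) (by decide) (0, 1) (by decide)
  have b3 : b (1, -1) = star sg := by simpa [A] using hb (1, 0) (by decide) (0, 1) (by decide)
  have key : ∀ x : X, cc x * (sg x * b (0, -2) x + conj (sg x)) = 0 := by
    intro x
    obtain ⟨v, hv⟩ := gram (S := {(0, 0), (1, 0), (0, 1), (0, -1), (1, -1)}) (a := fun l => b l x)
      ⟨B.map fun f => f x, by
        ext i j
        have := congrArg (fun f : C(X, ℂ) => f x) (congrFun (congrFun hB i) j)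
        simpa [Matrix.mul_apply] using this⟩
    have hc : conj (cc x) = cc x := congrArg (fun f : C(X, ℂ) => f x) cc_star
    have h : cc x * cc x + conj (sg x) * sg x = 1 := congrArg (fun f : C(X, ℂ) => f x) cs
    have e1 := forced (v (0, 0)) (v (1, 0)) (v (0, 1)) _ _ hc h
      (by rw [hv _ (by decide) _ (by decide)]; simp [← Prod.mk_zero_zero, b0])
      (by rw [hv _ (by decide) _ (by decide)]; simp [← Prod.mk_zero_zero, b0])
      (by rw [hv _ (by decide) _ (by decide)]; simp [← Prod.mk_zero_zero, b0])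
      (by rw [hv _ (by decide) _ (by decide)]; simp [b1])
      (by rw [hv _ (by decide) _ (by decide)]; simp [b2])
      (by rw [hv _ (by decide) _ (by decide)]; simp [b3])
    have e2 := forced (v (0, -1)) (v (1, -1)) (v (0, 0)) _ _ hc h
      (by rw [hv _ (by decide) _ (by decide)]; simp [← Prod.mk_zero_zero, b0])
      (by rw [hv _ (by decide) _ (by decide)]; simp [← Prod.mk_zero_zero, b0])
      (by rw [hv _ (by decide) _ (by decide)]; simp [← Prod.mk_zero_zero, b0])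
      (by rw [hv _ (by decide) _ (by decide)]; simp [b1])
      (by rw [hv _ (by decide) _ (by decide)]; simp [b2])
      (by rw [hv _ (by decide) _ (by decide)]; simp [b3])
    have f1 : inner ℂ (v (0, -1)) (v (1, 0)) = sg x * b (0, -2) x := by
      rw [e1, inner_add_right, inner_smul_right, inner_smul_right, hv _ (by decide) _ (by decide),
        hv _ (by decide) _ (by decide)]
      simp [b2']
    have f2 : inner ℂ (v (1, -1)) (v (1, 0)) = 0 := by
      rw [hv _ (by decide) _ (by decide)]; simp [b2']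
    rw [e2, inner_add_left, inner_smul_left, inner_smul_left, f1, hc,
      hv _ (by decide) _ (by decide)] at f2
    simp only [Prod.mk_sub_mk, zero_sub, sub_zero, b1'] at f2
    linear_combination f2
  have hg : Continuous fun t : ℝ => b (0, -2) (Set.projIcc (-1) 1 (by norm_num) t) :=
    (b (0, -2)).continuous.comp continuous_projIcc
  have cne : ∀ (t : ℝ) (h : t ∈ Set.Icc (-1 : ℝ) 1), t ^ 2 < 1 → cc ⟨t, h⟩ ≠ 0 := by
    intro t h ht
    simp only [cc, ContinuousMap.coe_mk, ne_eq, Complex.ofReal_eq_zero]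
    exact (Real.sqrt_pos.2 (by linarith)).ne'
  have r1 : Tendsto (fun t : ℝ => b (0, -2) (Set.projIcc (-1) 1 (by norm_num) t)) (𝓝[>] 0)
      (𝓝 (-1)) := by
    refine tendsto_const_nhds.congr' ?_
    filter_upwards [Ioo_mem_nhdsGT zero_lt_one] with t ht
    have hm : t ∈ Set.Icc (-1 : ℝ) 1 := ⟨by linarith [ht.1], ht.2.le⟩
    rw [Set.projIcc_of_mem _ hm]
    have := (mul_eq_zero.1 (key ⟨t, hm⟩)).resolve_left (cne t hm (by nlinarith [ht.1, ht.2]))
    have hs : sg ⟨t, hm⟩ = t := by simp [sg, ht.1.le]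
    rw [hs, Complex.conj_ofReal] at this
    have ht0 : (t : ℂ) ≠ 0 := by exact_mod_cast ht.1.ne'
    exact mul_left_cancel₀ ht0 (by linear_combination -this)
  have r2 : Tendsto (fun t : ℝ => b (0, -2) (Set.projIcc (-1) 1 (by norm_num) t)) (𝓝[<] 0)
      (𝓝 1) := by
    refine tendsto_const_nhds.congr' ?_
    filter_upwards [Ioo_mem_nhdsLT (show (-1 : ℝ) < 0 by norm_num)] with t ht
    have hm : t ∈ Set.Icc (-1 : ℝ) 1 := ⟨ht.1.le, by linarith [ht.2]⟩
    rw [Set.projIcc_of_mem _ hm]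
    have := (mul_eq_zero.1 (key ⟨t, hm⟩)).resolve_left (cne t hm (by nlinarith [ht.1, ht.2]))
    have hs : sg ⟨t, hm⟩ = -t * Complex.I := by simp [sg, ht.2.le]
    rw [hs] at this
    have ht0 : -(t : ℂ) * Complex.I ≠ 0 :=
      mul_ne_zero (neg_ne_zero.2 (by exact_mod_cast ht.2.ne)) Complex.I_ne_zero
    simp only [map_mul, map_neg, Complex.conj_ofReal, Complex.conj_I] at this
    exact mul_left_cancel₀ ht0 (by linear_combination -this)
  have q1 := tendsto_nhds_unique ((hg.tendsto 0).mono_left nhdsWithin_le_nhds) r1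
  have q2 := tendsto_nhds_unique ((hg.tendsto 0).mono_left nhdsWithin_le_nhds) r2
  rw [q1] at q2
  norm_num at q2

theorem result : ∃ (X : Type) (_ : TopologicalSpace X) (_ : CompactSpace X) (_ : T2Space X)
    (_ : Nonempty X) (L : Finset (ℤ × ℤ)), ExtProp ℂ L ∧ ¬ ExtProp C(X, ℂ) L :=
  ⟨X, inferInstance, inferInstance, inferInstance, ⟨⟨0, by norm_num⟩⟩, L, ext_scalar, not_ext⟩

end Pool.Agent.Results.MP_76760e_an.NotAdmissible
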